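import Mathlib
import Pool.Agent.H.MP_597c46_an.A

namespace Pool.Agent.Results.MP_597c46_an.MaxMono

open Set Pool.Agent.H.MP_597c46_an

/-- Monotone set-valued maps. -/
def IsMono {n : ℕ} (A : EuclideanSpace ℝ (Fin n) → Set (EuclideanSpace ℝ (Fin n))) : Prop :=
  ∀ x y u v, u ∈ A x → v ∈ A y → 0 ≤ inner ℝ (u - v) (x - y)

/-- Maximally monotone set-valued maps. -/
def IsMaxMono {n : ℕ} (A : EuclideanSpace ℝ (Fin n) → Set (EuclideanSpace ℝ (Fin n))) : Prop :=
  IsMono A ∧ ∀ B : EuclideanSpace ℝ (Fin n) → Set (EuclideanSpace ℝ (Fin n)),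
    IsMono B → (∀ x, A x ⊆ B x) → ∀ x, B x = A x

theorem result (n : ℕ) (hn : 2 ≤ n) :
    ∃ C : Set (EuclideanSpace ℝ (Fin n)), C.Nonempty ∧ Convex ℝ C ∧
      ∀ A : EuclideanSpace ℝ (Fin n) → Set (EuclideanSpace ℝ (Fin n)), IsMaxMono A →
        {x | (A x).Nonempty} ≠ C ∧ (⋃ x, A x) ≠ C := by
  obtain ⟨C, hne, hconv, hC⟩ := core n hn
  refine ⟨C, hne, hconv, fun A hA => ?_⟩
  have key : ∀ x u, u ∈ A x ↔ ∀ y v, v ∈ A y → 0 ≤ inner ℝ (u - v) (x - y) := by
    intro x u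
    refine ⟨fun h y v hv => hA.1 x y u v h hv, fun h => ?_⟩
    have hB : IsMono fun z => A z ∪ {w | z = x ∧ w = u} := by
      rintro a b s t (hs | ⟨rfl, rfl⟩) (ht | ⟨hb, ht⟩)
      · exact hA.1 _ _ _ _ hs ht
      · subst hb ht
        have := h a s hs
        rwa [← inner_neg_neg, neg_sub, neg_sub] at this
      · exact h _ _ ht
      · subst hb ht; simp
    have := hA.2 _ hB (fun z => subset_union_left) x
    rw [← this]
    exact Or.inr ⟨rfl, rfl⟩
  have hG : IsClosed {p : EuclideanSpace ℝ (Fin n) × EuclideanSpace ℝ (Fin n) |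
      p.2 ∈ A p.1} := by
    have : {p : EuclideanSpace ℝ (Fin n) × EuclideanSpace ℝ (Fin n) | p.2 ∈ A p.1}
        = ⋂ y, ⋂ v, ⋂ (_ : v ∈ A y), {p | 0 ≤ inner ℝ (p.2 - v) (p.1 - y)} := by
      ext p
      simp only [mem_ofPred_eq, mem_iInter]
      exact key _ _
    rw [this]
    refine isClosed_iInter fun y => isClosed_iInter fun v => isClosed_iInter fun _ => ?_
    exact isClosed_le continuous_const (by fun_prop)
  have h := proj hC _ hG
  constructor
  · convert h.1 using 1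
    ext x
    simp [Set.Nonempty]
  · convert h.2 using 1
    ext u
    simp

end Pool.Agent.Results.MP_597c46_an.MaxMono
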