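import Mathlib
import Pool.Agent.H.MP_597c46_an.A

namespace Pool.Agent.Results.MP_597c46_an.Subdiff

open Set Pool.Agent.H.MP_597c46_an

/-- The subdifferential of `f` at `x`. -/
def subdiff {n : ℕ} (f : EuclideanSpace ℝ (Fin n) → EReal) (x : EuclideanSpace ℝ (Fin n)) :
    Set (EuclideanSpace ℝ (Fin n)) :=
  {u | ∀ y, f x + ((inner ℝ u (y - x) : ℝ) : EReal) ≤ f y}

theorem result (n : ℕ) (hn : 2 ≤ n) :
    ∃ C : Set (EuclideanSpace ℝ (Fin n)), C.Nonempty ∧ Convex ℝ C ∧
      ∀ f : EuclideanSpace ℝ (Fin n) → EReal, (∀ x, f x ≠ ⊥) → (∃ x, f x ≠ ⊤) →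
        LowerSemicontinuous f →
        Convex ℝ {p : EuclideanSpace ℝ (Fin n) × ℝ | f p.1 ≤ (p.2 : EReal)} →
        {x | (subdiff f x).Nonempty} ≠ C ∧ (⋃ x, subdiff f x) ≠ C := by
  obtain ⟨C, hne, hconv, hC⟩ := core n hn
  refine ⟨C, hne, hconv, fun f hbot _ hl _ => ?_⟩
  have hG : IsClosed {p : EuclideanSpace ℝ (Fin n) × EuclideanSpace ℝ (Fin n) |
      p.2 ∈ subdiff f p.1} := by
    simp only [subdiff, mem_ofPred_eq]
    rw [Set.ofPred_forall]
    refine isClosed_iInter fun y => ?_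
    by_cases hy : f y = ⊤
    · simp [hy]
    obtain ⟨c, hc⟩ : ∃ c : ℝ, f y = c := ⟨(f y).toReal, (EReal.coe_toReal hy (hbot y)).symm⟩
    have h1 := hl.isClosed_epigraph
    have h2 : Continuous fun p : EuclideanSpace ℝ (Fin n) × EuclideanSpace ℝ (Fin n) =>
        (p.1, ((c - inner ℝ p.2 (y - p.1) : ℝ) : EReal)) := by
      refine continuous_fst.prodMk (continuous_coe_real_ereal.comp ?_)
      fun_prop
    have h3 := h1.preimage h2
    convert h3 using 1
    ext p
    simp only [mem_ofPred_eq, mem_preimage, hc]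
    rw [EReal.coe_sub]
    exact (EReal.le_sub_iff_add_le (Or.inl (EReal.coe_ne_bot _)) (Or.inl (EReal.coe_ne_top _))).symm
  have h := proj hC _ hG
  constructor
  · convert h.1 using 1
    ext x
    simp [Set.Nonempty]
  · convert h.2 using 1
    ext u
    simp

end Pool.Agent.Results.MP_597c46_an.Subdiff
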